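import Mathlib
import Pool.Agent.H75.TPFree

/-! The Freiheitssatz fails for transposed Poisson algebras. -/

set_option autoImplicit false

open Pool.Agent.H75.TP

universe u

theorem Pool.Agent.Results.MP_babce1_al.FreiheitssatzFails.result (F : Type u) [Field F]
    [CharZero F] :
    ∃ (T : TPAlg F) (x : Fin 6 → T.carrier), IsFree T x ∧
      ∃ f g : T.carrier, f ∉ genSub T (Set.range fun i : Fin 5 => x i.castSucc) ∧
        g ∈ genIdeal T f ∧ g ∈ genSub T (Set.range fun i : Fin 5 => x i.castSucc) ∧ g ≠ 0 :=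
  ⟨freeTP F 6, gen 6, isFree 6, main_aux _ _ (isFree 6)⟩
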